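import Pool.Agent.helper44.NLT.Spec

/-! nlt:AON: the first coefficient. -/

set_option autoImplicit false

open Complex Metric Set Filter Topology MeasureTheory MPS
open Pool.Agent.helper98.ILF Pool.Agent.helper16.Multibrot

noncomputable section

namespace NLT

lemma AON_Pc_zero (b : ℕ → ℂ) (m : ℕ) : NLS.Pc b m 0 = b 0 ^ m := by
  induction m with
  | zero => simp [NLS.Pc]
  | succ m ih => simp [NLS.Pc, ih, pow_succ]

lemma AON_Pc_one (b : ℕ → ℂ) (m : ℕ) : NLS.Pc b m 1 = m * b 0 ^ (m - 1) * b 1 := by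
  induction m with
  | zero => simp [NLS.Pc]
  | succ m ih =>
    simp only [NLS.Pc, Finset.sum_range_succ, Finset.sum_range_zero, zero_add, ih, AON_Pc_zero]
    rcases Nat.eq_zero_or_pos m with h | h
    · subst h; simp
    · obtain ⟨k, rfl⟩ : ∃ k, m = k + 1 := ⟨m - 1, by omega⟩
      simp only [Nat.add_sub_cancel, Nat.sub_zero, Nat.sub_self]
      push_cast
      ring

theorem AON (hREL : NLF.REL_stmt) (hNZ : NLF.NZ_stmt) : AON_stmt := by
  intro n c ψ a M μ hS hLF hvol hψ
  have hn := hS.hn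
  have hCT : ∀ z ∉ filled n c, ψ 1 z = -(1 / Real.pi) * NLF.CT μ z := by
    intro z hz
    rw [hψ z hz, NLF.CT, neg_mul, ← mul_neg, ← integral_neg]
    congr 1
    refine integral_congr_ae (Filter.Eventually.of_forall fun w => ?_)
    show μ w / (z - w) = -(μ w / (w - z))
    rw [← neg_sub w z, div_neg]
  obtain ⟨z, hz⟩ : ∃ z : ℂ, z ∉ filled n c := by
    refine ⟨((5 + ‖c‖ : ℝ) : ℂ), fun h => ?_⟩
    have h1 := filled_subset n c h
    rw [mem_closedBall_zero_iff, Complex.norm_real, Real.norm_eq_abs,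
      abs_of_nonneg (by positivity)] at h1
    linarith
  have hz' : z ^ n + c ∉ filled n c := by
    intro h
    have h1 : z ∈ (fun z : ℂ => z ^ n + c) ⁻¹' filled n c := h
    rw [preimage_filled hn] at h1
    exact hz h1
  have h1 := hS.feq 1 z hz
  rw [AON_Pc_one, hS.z0, hCT z hz, hCT _ hz'] at h1
  have h2 := hREL n c μ hn hLF z
  unfold MPS.fd at h2
  intro h3
  rw [h3, add_zero] at h1
  have hpi : (Real.pi : ℂ) ≠ 0 := by exact_mod_cast Real.pi_ne_zero
  have h4 : NLF.CT μ (z ^ n + c) = n * z ^ (n - 1) * NLF.CT μ z := by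
    have h5 : (-(1 / (Real.pi : ℂ))) ≠ 0 := neg_ne_zero.mpr (one_div_ne_zero hpi)
    apply mul_left_cancel₀ h5
    rw [h1]; ring
  rw [h4] at h2
  have h6 : NLF.CT μ c = 0 := by linear_combination h2
  exact hNZ n c μ hn hLF hvol h6

end NLT
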